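import Pool.Agent.N139.AS.Final

set_option autoImplicit false

/-!
# MP_0ea811_al: amalgams of stable groups over finite groups which are not flexibly stable

`G₁` is the elementary group `E₃` of the Leavitt algebra with two generators over the field with
`257` elements: it has no asymptotic homomorphism to unitary matrices (normalised Hilbert-Schmidt
distance) except those which are asymptotically trivial, so it is stable, and it has no finite
quotient. `G₂` is the semidirect product of the restricted wreath product of `ℤ/257` and
`⨁_ℤ ℤ/2` with `ℤ`, that is `ℤ/257 ≀_Λ (ℤ/2 ≀ ℤ)` with `Λ = ⨁_ℤ ℤ/2`; it is finitely generated,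
solvable and residually finite, and it is stable for both classes (random marks and skyscrapers).
The cyclic group of order `257` in `G₂` is generated by `h = (1 - λ₀)(1 + λ₁)`: every homomorphism
to a finite group which kills `h` kills `u = (1 + λ₀)(1 - λ₁)`, but there are finite `G₂`-sets in
which `h` moves few points and `u` moves almost all points.
-/

namespace Pool.Agent.Results.MP_0ea811_al.AmalgamNotStable

open Pool.Agent.H698R3.Amalg (PermutationStable HilbertSchmidtStable AmalgProd)
open Pool.Agent.H698R4 (FlexPermWrt FlexHSWrt)

/-- `G` is finitely generated, stable in permutations and Hilbert-Schmidt stable. -/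
def StableBoth (G : Type) [Group G] : Prop :=
  Group.FG G ∧ PermutationStable G ∧ HilbertSchmidtStable G

/-- `G` is finitely generated, not stable in permutations, not Hilbert-Schmidt stable, and, with
respect to every finite generating tuple `s`, neither flexibly stable in permutations nor flexibly
Hilbert-Schmidt stable. -/
def UnstableBoth (G : Type) [Group G] : Prop :=
  Group.FG G ∧ ¬ PermutationStable G ∧ ¬ HilbertSchmidtStable G ∧
    ∀ (r : ℕ) (s : Fin r → G), Subgroup.closure (Set.range s) = ⊤ →
      ¬ FlexPermWrt s ∧ ¬ FlexHSWrt s

/-- There are finitely generated groups `G₁` and `G₂`, both stable in permutations and both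
Hilbert-Schmidt stable, and embeddings of the cyclic group `H` of order `257` in `G₁` and in `G₂`,
such that the (finitely generated) amalgamated free product `G₁ *_H G₂` is not stable in
permutations, not Hilbert-Schmidt stable, and, with respect to every finite generating tuple, not
flexibly stable in permutations and not flexibly Hilbert-Schmidt stable. -/
theorem result : ∃ (G₁ G₂ : Type) (_ : Group G₁) (_ : Group G₂)
    (f₁ : Multiplicative (ZMod 257) →* G₁) (f₂ : Multiplicative (ZMod 257) →* G₂),
    Function.Injective f₁ ∧ Function.Injective f₂ ∧ StableBoth G₁ ∧ StableBoth G₂ ∧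
      UnstableBoth (AmalgProd f₁ f₂) := by
  obtain ⟨G₁, G₂, i₁, i₂, f₁, f₂, fg₁, fg₂, inj₁, inj₂, p₁, p₂, h₁, h₂, fg, np, nh, nf⟩ :=
    Pool.Agent.N139.AS.final
  exact ⟨G₁, G₂, i₁, i₂, f₁, f₂, inj₁, inj₂, ⟨fg₁, p₁, h₁⟩, ⟨fg₂, p₂, h₂⟩, fg, np, nh, nf⟩

end Pool.Agent.Results.MP_0ea811_al.AmalgamNotStable
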